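import Pool.Agent.V11320.CW.Walk

set_option autoImplicit false

open MeasureTheory ProbabilityTheory Filter Topology
open scoped ENNReal
open Pool.Agent.V11320.CW

namespace Pool.Agent.V11258.CW1

/-- one-dimensional position for given refresh indicators and signs -/
def S (ξ : ℕ → Bool) (ε : ℕ → Bool) (n : ℕ) : ℤ := ∑ k ∈ Finset.range n, sg (ε (last ξ k))

lemma pos_one (w : Om 1) (n : ℕ) (j : Fin 1) : pos w n j = S w.1 w.2.2 n := by
  rw [pos_eq]
  unfold S
  refine Finset.sum_congr rfl fun k _ => ?_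
  rw [if_pos (Subsingleton.elim _ _)]

lemma sqrt_pos (w : Om 1) (n : ℕ) :
    Real.sqrt (∑ j, (pos w n j : ℝ)^2) = |(S w.1 w.2.2 n : ℝ)| := by
  have : ∑ j, (pos w n j : ℝ)^2 = (S w.1 w.2.2 n : ℝ)^2 := by
    simp only [pos_one]
    simp
  rw [this, Real.sqrt_sq_eq_abs]

lemma S_succ (ξ ε : ℕ → Bool) (n : ℕ) : S ξ ε (n+1) = S ξ ε n + sg (ε (last ξ n)) := by
  unfold S
  rw [Finset.sum_range_succ]

lemma abs_sg (b : Bool) : |sg b| = 1 := by
  unfold sg
  split_ifs <;> simp

lemma dichotomy (s : ℕ → ℤ) (h1 : ∀ n, |s (n+1) - s n| ≤ 1)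
    (h : Tendsto (fun n => |(s n : ℝ)|) atTop atTop) :
    Tendsto s atTop atTop ∨ Tendsto s atTop atBot := by
  have h' : Tendsto (fun n => |s n|) atTop atTop := by
    rw [← tendsto_intCast_atTop_iff (R := ℝ)]
    simpa only [Int.cast_abs] using h
  obtain ⟨N, hN⟩ := eventually_atTop.1 (h'.eventually_ge_atTop 1)
  rcases le_total 0 (s N) with h0 | h0
  · left
    have hpos : ∀ n, N ≤ n → 1 ≤ s n := by
      intro n hn
      induction n, hn using Nat.le_induction with
      | base =>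
        have := hN N le_rfl
        rwa [abs_of_nonneg h0] at this
      | succ n hn ih =>
        have a := hN (n+1) (by omega)
        have b := abs_le.1 (h1 n)
        rcases le_abs.1 a with c | c
        · exact c
        · omega
    refine h'.congr' ?_
    filter_upwards [eventually_ge_atTop N] with n hn
    have := hpos n hn
    exact abs_of_nonneg (by omega)
  · right
    have hneg : ∀ n, N ≤ n → s n ≤ -1 := by
      intro n hn
      induction n, hn using Nat.le_induction with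
      | base =>
        have := hN N le_rfl
        rw [abs_of_nonpos h0] at this
        omega
      | succ n hn ih =>
        have a := hN (n+1) (by omega)
        have b := abs_le.1 (h1 n)
        rcases le_abs.1 a with c | c
        · omega
        · omega
    refine (tendsto_neg_atTop_atBot.comp h').congr' ?_
    filter_upwards [eventually_ge_atTop N] with n hn
    have := hneg n hn
    simp only [Function.comp]
    rw [abs_of_nonpos (by omega), neg_neg]

lemma S_dich (ξ ε : ℕ → Bool) (h : Tendsto (fun n => |(S ξ ε n : ℝ)|) atTop atTop) :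
    Tendsto (S ξ ε) atTop atTop ∨ Tendsto (S ξ ε) atTop atBot := by
  refine dichotomy _ (fun n => ?_) h
  rw [S_succ, add_sub_cancel_left, abs_sg]

lemma tail_tendsto (ξ ε ε' : ℕ → Bool) (N : ℕ) (hξ : ∀ M, ∃ r, M ≤ r ∧ ξ r = true)
    (h : ∀ i, N ≤ i → ε i = ε' i) (ht : Tendsto (S ξ ε) atTop atTop) :
    Tendsto (S ξ ε') atTop atTop := by
  obtain ⟨r, hr, hr'⟩ := hξ N
  have hlast : ∀ k, r ≤ k → N ≤ last ξ k := by
    intro k hk
    have := last_mono ξ hk
    rw [last_self ξ r (Or.inr hr')] at this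
    omega
  have key : ∀ n, r ≤ n → S ξ ε n + (S ξ ε' r - S ξ ε r) = S ξ ε' n := by
    intro n hn
    induction n, hn using Nat.le_induction with
    | base => ring
    | succ n hn ih =>
      rw [S_succ, S_succ, h _ (hlast n hn), ← ih]
      ring
  have := tendsto_atTop_add_const_right atTop (S ξ ε' r - S ξ ε r) ht
  refine this.congr' ?_
  filter_upwards [eventually_ge_atTop r] with n hn
  exact key n hn

/-- positive escape event -/
def Tp (ξ : ℕ → Bool) : Set (ℕ → Bool) := {ε | Tendsto (S ξ ε) atTop atTop}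

/-- negative escape event -/
def Tm (ξ : ℕ → Bool) : Set (ℕ → Bool) := {ε | Tendsto (S ξ ε) atTop atBot}

/-- coordinate sigma-algebras -/
@[reducible] def cs (i : ℕ) : MeasurableSpace (ℕ → Bool) :=
  MeasurableSpace.comap (fun ε : ℕ → Bool => ε i) inferInstance

/-- replacement of the first coordinates -/
def Rp (N : ℕ) (ε : ℕ → Bool) : ℕ → Bool := fun i => if i < N then true else ε i

lemma Tp_eq (ξ : ℕ → Bool) (hξ : ∀ M, ∃ r, M ≤ r ∧ ξ r = true) (N : ℕ) :
    Tp ξ = {ε | Tendsto (fun n => S ξ (Rp N ε) n) atTop atTop} := by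
  ext ε
  have e : ∀ i, N ≤ i → ε i = Rp N ε i := by
    intro i hi
    unfold Rp
    rw [if_neg (by omega)]
  constructor
  · intro h
    exact tail_tendsto ξ ε (Rp N ε) N hξ e h
  · intro h
    exact tail_tendsto ξ (Rp N ε) ε N hξ (fun i hi => (e i hi).symm) h

lemma Tp_tail (ξ : ℕ → Bool) (hξ : ∀ M, ∃ r, M ≤ r ∧ ξ r = true) :
    MeasurableSet[limsup cs atTop] (Tp ξ) := by
  rw [limsup_eq_iInf_iSup_of_nat]
  rw [MeasurableSpace.measurableSet_iInf]
  intro N
  rw [Tp_eq ξ hξ N]
  have hc : ∀ i, Measurable[⨆ i ≥ N, cs i] (fun ε : ℕ → Bool => Rp N ε i) := by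
    intro i
    unfold Rp
    by_cases hi : i < N
    · simp only [hi, if_true]
      exact @measurable_const _ _ (_) (_) _
    · simp only [hi, if_false]
      rw [measurable_iff_comap_le]
      exact le_iSup₂_of_le (f := fun i (_ : i ≥ N) => cs i) i (by omega) le_rfl
  refine @measurableSet_tendsto _ _ _ (⨆ i ≥ N, cs i) _ _ _ _ _ _ _ _ (fun n => ?_)
  unfold S
  refine Finset.measurable_sum _ fun k _ => ?_
  exact (measurable_of_countable sg).comp (hc _)

lemma cs_le (i : ℕ) : cs i ≤ (inferInstance : MeasurableSpace (ℕ → Bool)) :=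
  (measurable_pi_apply i).comap_le

lemma cs_indep : iIndep cs sgnLaw := by
  have h : iIndepFun (fun (i : ℕ) (ω : ℕ → Bool) => ω i) (Measure.infinitePi fun _ => ber half) :=
    iIndepFun_infinitePi (P := fun _ => ber half) (X := fun _ b => b) (fun _ => measurable_id)
  rw [iIndepFun_iff_iIndep] at h
  exact h

lemma Tp_zero_one (ξ : ℕ → Bool) (hξ : ∀ M, ∃ r, M ≤ r ∧ ξ r = true) :
    sgnLaw (Tp ξ) = 0 ∨ sgnLaw (Tp ξ) = 1 :=
  measure_zero_or_one_of_measurableSet_limsup_atTop cs_le cs_indep (Tp_tail ξ hξ)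

/-- flip of all signs -/
def F (ε : ℕ → Bool) : ℕ → Bool := fun i => !(ε i)

lemma measurable_F : Measurable F := by
  unfold F
  refine measurable_pi_lambda _ fun i => ?_
  exact (measurable_of_countable (fun b : Bool => !b)).comp (measurable_pi_apply i)

lemma ber_half_map : (ber half).map (fun b : Bool => !b) = ber half := by
  refine Measure.ext_of_singleton fun a => ?_
  rw [Measure.map_apply (measurable_of_countable _) (measurableSet_singleton a)]
  have : (fun b : Bool => !b) ⁻¹' {a} = {!a} := by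
    ext b
    cases a <;> cases b <;> simp
  rw [this, ber_half, ber_half]

lemma sgnLaw_map : sgnLaw.map F = sgnLaw := by
  unfold sgnLaw F
  rw [Measure.infinitePi_map_pi (fun _ => ber half) (f := fun _ b => !b)
    (fun _ => measurable_of_countable _)]
  simp only [ber_half_map]

lemma S_F (ξ ε : ℕ → Bool) (n : ℕ) : S ξ (F ε) n = - S ξ ε n := by
  unfold S
  rw [← Finset.sum_neg_distrib]
  refine Finset.sum_congr rfl fun k _ => ?_
  unfold F sg
  cases ε (last ξ k) <;> simp

lemma measurable_S (ξ : ℕ → Bool) (n : ℕ) : Measurable fun ε => S ξ ε n := by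
  unfold S
  refine Finset.measurable_sum _ fun k _ => ?_
  exact (measurable_of_countable sg).comp (measurable_pi_apply _)

lemma measurableSet_Tp (ξ : ℕ → Bool) : MeasurableSet (Tp ξ) :=
  measurableSet_tendsto _ (fun n => measurable_S ξ n)

lemma Tm_eq (ξ : ℕ → Bool) : Tm ξ = F ⁻¹' (Tp ξ) := by
  ext ε
  have e : S ξ (F ε) = fun n => - S ξ ε n := funext fun n => S_F ξ ε n
  show Tendsto (S ξ ε) atTop atBot ↔ Tendsto (S ξ (F ε)) atTop atTop
  rw [e, tendsto_neg_atTop_iff]

lemma Tm_measure (ξ : ℕ → Bool) : sgnLaw (Tm ξ) = sgnLaw (Tp ξ) := by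
  rw [Tm_eq, ← Measure.map_apply measurable_F (measurableSet_Tp ξ), sgnLaw_map]

lemma Tm_sub (ξ : ℕ → Bool) : Tm ξ ⊆ (Tp ξ)ᶜ := by
  intro ε h1 h2
  have h1 : Tendsto (S ξ ε) atTop atBot := h1
  have h2 : Tendsto (S ξ ε) atTop atTop := h2
  exact h1.not_tendsto disjoint_atBot_atTop h2

lemma Tp_zero (ξ : ℕ → Bool) (hξ : ∀ M, ∃ r, M ≤ r ∧ ξ r = true) : sgnLaw (Tp ξ) = 0 := by
  rcases Tp_zero_one ξ hξ with h | h
  · exact h
  · exfalso
    have h1 : sgnLaw (Tp ξ)ᶜ = 0 := by
      rw [prob_compl_eq_zero_iff (measurableSet_Tp ξ)]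
      exact h
    have h2 : sgnLaw (Tm ξ) ≤ 0 := by
      rw [← h1]
      exact measure_mono (Tm_sub ξ)
    rw [Tm_measure, h] at h2
    exact absurd h2 (by norm_num)

lemma not_tendsto (ξ : ℕ → Bool) (hξ : ∀ M, ∃ r, M ≤ r ∧ ξ r = true) :
    ∀ᵐ ε ∂sgnLaw, ¬ Tendsto (fun n => |(S ξ ε n : ℝ)|) atTop atTop := by
  have h1 := Tp_zero ξ hξ
  have h2 : sgnLaw (Tm ξ) = 0 := by rw [Tm_measure, h1]
  have a1 : ∀ᵐ ε ∂sgnLaw, ε ∉ Tp ξ := measure_eq_zero_iff_ae_notMem.1 h1
  have a2 : ∀ᵐ ε ∂sgnLaw, ε ∉ Tm ξ := measure_eq_zero_iff_ae_notMem.1 h2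
  filter_upwards [a1, a2] with ε e1 e2 h
  rcases S_dich ξ ε h with h | h
  · exact e1 h
  · exact e2 h

lemma refLaw_true (p : ℕ → unitInterval) (n : ℕ) :
    refLaw p {ξ | ξ n = true} = ENNReal.ofReal (p n) := by
  have h := Measure.infinitePi_pi (μ := fun n => ber (p n)) (s := {n})
    (t := fun _ => ({true} : Set Bool)) (fun _ _ => measurableSet_singleton _)
  rw [Finset.prod_singleton] at h
  have e : ((({n} : Finset ℕ) : Set ℕ).pi fun _ => ({true} : Set Bool)) =
      {ξ : ℕ → Bool | ξ n = true} := by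
    ext ξ
    simp
  rw [e] at h
  unfold refLaw
  rw [h]
  simp only [ber, Measure.coe_add, Measure.coe_smul, Pi.add_apply, Pi.smul_apply, smul_eq_mul]
  rw [Measure.dirac_apply' _ (measurableSet_singleton _),
    Measure.dirac_apply' _ (measurableSet_singleton _)]
  simp

lemma refLaw_indep (p : ℕ → unitInterval) :
    iIndepSet (fun n : ℕ => {ξ : ℕ → Bool | ξ (n+1) = true}) (refLaw p) := by
  have hm : ∀ n : ℕ, MeasurableSet {ξ : ℕ → Bool | ξ (n+1) = true} := fun n =>
    measurableSet_eq_fun (measurable_pi_apply _) measurable_const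
  rw [iIndepSet_iff_meas_biInter hm]
  intro s
  have h := Measure.infinitePi_pi (μ := fun n => ber (p n))
    (s := s.map ⟨fun n => n+1, add_left_injective 1⟩)
    (t := fun _ => ({true} : Set Bool)) (fun _ _ => measurableSet_singleton _)
  have e : (((s.map ⟨fun n => n+1, add_left_injective 1⟩ : Finset ℕ) : Set ℕ).pi
      fun _ => ({true} : Set Bool)) = ⋂ i ∈ s, {ξ : ℕ → Bool | ξ (i+1) = true} := by
    ext ξ
    simp [Set.mem_pi]
  rw [e] at h
  have h' : refLaw p (⋂ i ∈ s, {ξ : ℕ → Bool | ξ (i+1) = true}) = _ := h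
  rw [h', Finset.prod_map]
  refine Finset.prod_congr rfl fun i _ => ?_
  have h2 := Measure.infinitePi_pi (μ := fun n => ber (p n)) (s := {i+1})
    (t := fun _ => ({true} : Set Bool)) (fun _ _ => measurableSet_singleton _)
  rw [Finset.prod_singleton] at h2
  have e2 : ((({i+1} : Finset ℕ) : Set ℕ).pi fun _ => ({true} : Set Bool)) =
      {ξ : ℕ → Bool | ξ (i+1) = true} := by
    ext ξ
    simp
  rw [e2] at h2
  exact h2.symm

lemma inf_true (p : ℕ → unitInterval) (h : ¬ Summable fun n => (p (n+1) : ℝ)) :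
    ∀ᵐ ξ ∂(refLaw p), ∀ M, ∃ r, M ≤ r ∧ ξ r = true := by
  have hm : ∀ n : ℕ, MeasurableSet {ξ : ℕ → Bool | ξ (n+1) = true} := fun n =>
    measurableSet_eq_fun (measurable_pi_apply _) measurable_const
  have hs : (∑' n, refLaw p {ξ : ℕ → Bool | ξ (n+1) = true}) = ∞ := by
    simp only [refLaw_true]
    by_contra hne
    apply h
    have := ENNReal.summable_toReal hne
    refine this.congr fun n => ?_
    rw [ENNReal.toReal_ofReal (p (n+1)).2.1]
  have h1 := measure_limsup_eq_one hm (refLaw_indep p) hs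
  have hml : MeasurableSet (limsup (fun n : ℕ => {ξ : ℕ → Bool | ξ (n+1) = true}) atTop) :=
    MeasurableSet.measurableSet_limsup hm
  have h2 : ∀ᵐ ξ ∂(refLaw p), ξ ∈ limsup (fun n : ℕ => {ξ : ℕ → Bool | ξ (n+1) = true}) atTop := by
    rw [← prob_compl_eq_zero_iff hml] at h1
    exact h1
  filter_upwards [h2] with ξ hξ M
  rw [mem_limsup_iff_frequently_mem, frequently_atTop] at hξ
  obtain ⟨b, hb, hb'⟩ := hξ M
  exact ⟨b+1, by omega, hb'⟩

theorem nonsummable (p : ℕ → unitInterval) (h : ¬ Summable fun n => (p (n+1) : ℝ)) :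
    ∀ᵐ w ∂(crw 1 p), ¬ Tendsto (fun n => Real.sqrt (∑ j, (pos w n j : ℝ)^2)) atTop atTop := by
  have hm : MeasurableSet {w : Om 1 |
      ¬ Tendsto (fun n => Real.sqrt (∑ j, (pos w n j : ℝ)^2)) atTop atTop} := by
    refine (measurableSet_tendsto (f := fun n (w : Om 1) => Real.sqrt (∑ j, (pos w n j : ℝ)^2))
      atTop (fun n => ?_)).compl
    refine Real.continuous_sqrt.measurable.comp (Finset.measurable_sum _ fun j _ => ?_)
    exact ((measurable_of_countable (fun z : ℤ => (z : ℝ))).comp (measurable_pos n j)).pow_const 2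
  unfold crw
  rw [Measure.ae_prod_iff_ae_ae hm]
  filter_upwards [inf_true p h] with ξ hξ
  have h1 : ∀ᵐ y ∂((axLaw 1).prod sgnLaw),
      ¬ Tendsto (fun n => |(S ξ y.2 n : ℝ)|) atTop atTop :=
    Measure.quasiMeasurePreserving_snd.ae (not_tendsto ξ hξ)
  filter_upwards [h1] with y hy
  simp only [sqrt_pos]
  exact hy

theorem necessity (p : ℕ → unitInterval) (h : StrTrans 1 p) :
    Summable fun n => (p (n+1) : ℝ) := by
  by_contra hc
  have : IsProbabilityMeasure (crw 1 p) := by unfold crw; infer_instance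
  obtain ⟨w, h1, h2⟩ := (h.and (nonsummable p hc)).exists
  exact h2 h1

lemma det (ξ ε : ℕ → Bool) (N : ℕ) (h : ∀ n, N ≤ n → ξ (n+1) ≠ true) :
    Tendsto (fun n => |(S ξ ε n : ℝ)|) atTop atTop := by
  have hl : ∀ k, N ≤ k → last ξ k = last ξ N := by
    intro k hk
    induction k, hk using Nat.le_induction with
    | base => rfl
    | succ k hk ih =>
      rw [← ih]
      conv_lhs => unfold last
      rw [if_neg (h k hk)]
  have hS : ∀ n, N ≤ n → S ξ ε n = S ξ ε N + ((n : ℤ) - N) * sg (ε (last ξ N)) := by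
    intro n hn
    induction n, hn using Nat.le_induction with
    | base => ring
    | succ n hn ih =>
      rw [S_succ, ih, hl n hn]
      push_cast
      ring
  have hb : ∀ n, N ≤ n → (n : ℝ) + (-(N : ℝ) - |(S ξ ε N : ℝ)|) ≤ |(S ξ ε n : ℝ)| := by
    intro n hn
    have e1 : ((n : ℤ) - N) * sg (ε (last ξ N)) = S ξ ε n - S ξ ε N := by
      rw [hS n hn]; ring
    have e2 : |((n : ℤ) - N)| = |S ξ ε n - S ξ ε N| := by
      rw [← e1, abs_mul, abs_sg, mul_one]
    have e3 : |S ξ ε n - S ξ ε N| ≤ |S ξ ε n| + |S ξ ε N| := abs_sub _ _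
    have e4 : (n : ℤ) - N ≤ |S ξ ε n| + |S ξ ε N| := by
      refine le_trans (le_abs_self _) ?_
      rw [e2]; exact e3
    have e5 : (n : ℝ) - N ≤ |(S ξ ε n : ℝ)| + |(S ξ ε N : ℝ)| := by
      exact_mod_cast e4
    linarith
  have h2 : Tendsto (fun n : ℕ => (n : ℝ) + (-(N : ℝ) - |(S ξ ε N : ℝ)|)) atTop atTop :=
    tendsto_atTop_add_const_right atTop _ tendsto_natCast_atTop_atTop
  exact tendsto_atTop_mono' _ ((eventually_ge_atTop N).mono hb) h2

theorem sufficiency (p : ℕ → unitInterval) (h : Summable fun n => (p (n+1) : ℝ)) :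
    StrTrans 1 p := by
  have hs : (∑' n, refLaw p {ξ : ℕ → Bool | ξ (n+1) = true}) ≠ ∞ := by
    simp only [refLaw_true]
    rw [← ENNReal.ofReal_tsum_of_nonneg (fun n => (p (n+1)).2.1) h]
    exact ENNReal.ofReal_ne_top
  have h1 := ae_eventually_notMem hs
  have h2 : ∀ᵐ w ∂(crw 1 p), ∀ᶠ n in atTop, w.1 ∉ {ξ : ℕ → Bool | ξ (n+1) = true} := by
    unfold crw
    exact Measure.quasiMeasurePreserving_fst.ae h1
  unfold StrTrans
  filter_upwards [h2] with w hw
  obtain ⟨N, hN⟩ := eventually_atTop.1 hw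
  simp only [sqrt_pos]
  exact det w.1 w.2.2 N fun n hn => hN n hn

theorem main :
    (∀ p : ℕ → unitInterval, (Summable fun n => (p (n+1) : ℝ)) → StrTrans 1 p) ∧
    (∀ p : ℕ → unitInterval, (¬ Summable fun n => (p (n+1) : ℝ)) → ∀ᵐ w ∂(crw 1 p),
      ¬ Tendsto (fun n => Real.sqrt (∑ j, (pos w n j : ℝ)^2)) atTop atTop) ∧
    ∀ p p' : ℕ → unitInterval, (∀ n, p' n ≤ p n) → StrTrans 1 p → StrTrans 1 p' := by
  refine ⟨sufficiency, nonsummable, fun p p' hp hs => ?_⟩
  refine sufficiency p' ?_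
  exact Summable.of_nonneg_of_le (fun n => (p' (n+1)).2.1) (fun n => hp (n+1)) (necessity p hs)

end Pool.Agent.V11258.CW1
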